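import Pool.Agent.Lib.MP_9fae52_an.Exact

/-!
The least cost of a motion is attained and equals 2 √3 + 2 √2 arcsin ((6 - √6) / 10).
-/

namespace Pool.Agent.Results.MP_9fae52_an.ExactValue

open Pool.Agent.Lib.MP_9fae52_an

theorem result : IsLeast {c : ENNReal | ∃ A B : ℝ → E3, IsMotion A B ∧ cost A B = c}
    (ENNReal.ofReal (2 * √3 + 2 * √2 * Real.arcsin ((6 - √6) / 10))) := by
  have h : ∀ A B, IsMotion A B → ENNReal.ofReal (2 * √3 + 2 * √2 * Best.al) ≤ cost A B :=
    fun A B h => le_infCost.trans (iInf_le_of_le A (iInf_le_of_le B (iInf_le_of_le h le_rfl)))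
  refine ⟨⟨_, _, Best.isMotion, le_antisymm Best.cost_le (h _ _ Best.isMotion)⟩, ?_⟩
  rintro _ ⟨A, B, h1, rfl⟩
  exact h A B h1

end Pool.Agent.Results.MP_9fae52_an.ExactValue
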