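import Pool.Agent.Lib.MP_9fae52_an.Upper

/-!
The best three-stage motion is not optimal: the infimum of the cost over all motions is strictly
smaller than the infimum of the cost of the motions M_θ over admissible θ.
-/

namespace Pool.Agent.Results.MP_9fae52_an.NotOptimal

open Pool.Agent.Lib.MP_9fae52_an

theorem result : infCost < ENNReal.ofReal mStar :=
  lt_of_le_of_lt infCost_le
    ((ENNReal.ofReal_lt_ofReal_iff_of_nonneg (by norm_num)).mpr
      (lt_of_lt_of_le (by norm_num) mStar_ge))

end Pool.Agent.Results.MP_9fae52_an.NotOptimal
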